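import Pool.Agent.helper53.DC.SpecA

/-! dc:A15: facts on geodesic galleries. -/

set_option autoImplicit false

namespace Pool.Agent.helper77.DC

open Pool.Agent.helper53.DC

theorem A15 (hA3 : A3_stmt) (hA5 : A5_stmt) : A15_stmt := by
  classical
  intro B W _ M cs n x w hG
  have hstep : ∀ k < n, ∀ v, (cw cs).Sep v (x k) (x (k + 1)) ↔ v = w k := by
    intro k hk v
    obtain ⟨i, hi⟩ := hG.adj k hk
    have hw : w k = wall cs (x k) i := by
      apply Subtype.ext
      rw [wall_val, ← hi, hG.step k hk]; group
    rw [hi, hA3, hw]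
  have h1 : ∀ k < n, dd cs (x k) (x (k + 1)) = 1 := by
    intro k hk
    rw [dd_eq_one]
    exact hG.adj k hk
  have hup : ∀ d i, i + d ≤ n → dd cs (x i) (x (i + d)) ≤ d := by
    intro d
    induction d with
    | zero => intro i _; rw [Nat.add_zero, dd_self]
    | succ d ih =>
      intro i hi
      have h2 := dd_tri cs (x i) (x (i + d)) (x (i + d + 1))
      have h3 := h1 (i + d) (by omega)
      have h4 := ih i (by omega)
      have h5 : i + (d + 1) = i + d + 1 := rfl
      rw [h5]
      omega
  have hdist : ∀ i j, i ≤ j → j ≤ n → dd cs (x i) (x j) = j - i := by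
    intro i j hij hj
    have h2 := hup i 0 (by omega)
    have h3 := hup (j - i) i (by omega)
    have h4 := hup (n - j) j (by omega)
    rw [Nat.zero_add] at h2
    rw [show i + (j - i) = j by omega] at h3
    rw [show j + (n - j) = n by omega] at h4
    have h5 := dd_tri cs (x 0) (x i) (x n)
    have h6 := dd_tri cs (x i) (x j) (x n)
    have h7 := hG.geo
    omega
  have hcross : ∀ v m, m ≤ n → (cw cs).Sep v (x 0) (x m) → ∃ k < m, v = w k := by
    intro v m
    induction m with
    | zero => intro _ h; exact absurd Iff.rfl h
    | succ m ih =>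
      intro hm h
      by_cases h2 : (cw cs).Sep v (x 0) (x m)
      · obtain ⟨k, hk, e⟩ := ih (by omega) h2
        exact ⟨k, by omega, e⟩
      · refine ⟨m, by omega, (hstep m (by omega) v).1 ?_⟩
        unfold WS.Sep at h h2 ⊢
        tauto
  have hinj : ∀ i j, i < n → j < n → w i = w j → i = j := by
    obtain ⟨hf, hc⟩ := hA5 cs (x 0) (x n)
    rw [hG.geo] at hc
    have hsub : {r | (cw cs).Sep r (x 0) (x n)} ⊆ (((Finset.range n).image w : Finset (Wall cs)) :
        Set (Wall cs)) := by
      intro v hv
      obtain ⟨k, hk, e⟩ := hcross v n le_rfl hv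
      rw [Finset.mem_coe, Finset.mem_image]
      exact ⟨k, Finset.mem_range.2 hk, e.symm⟩
    have h2 := Set.ncard_le_ncard hsub (Finset.finite_toSet _)
    rw [hc, Set.ncard_coe_finset] at h2
    have h3 : ((Finset.range n).image w).card ≤ n := by
      have := Finset.card_image_le (s := Finset.range n) (f := w)
      rwa [Finset.card_range] at this
    have h4 : ((Finset.range n).image w).card = (Finset.range n).card := by
      rw [Finset.card_range]; omega
    have h5 := Finset.card_image_iff.1 h4
    intro i j hi hj e
    exact h5 (Finset.mem_coe.2 (Finset.mem_range.2 hi)) (Finset.mem_coe.2 (Finset.mem_range.2 hj)) e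
  have hside : ∀ k < n, ∀ m ≤ n,
      ((x m ∈ (cw cs).H (w k) ↔ x 0 ∈ (cw cs).H (w k)) ↔ ¬ k < m) := by
    intro k hk m
    induction m with
    | zero => intro _; simp
    | succ m ih =>
      intro hm
      have ih' := ih (by omega)
      have h2 := hstep m (by omega) (w k)
      unfold WS.Sep at h2
      by_cases hkm : k = m
      · subst hkm
        have h3 := h2.2 rfl
        have h4 : ¬ k < k := lt_irrefl k
        have h5 : k < k + 1 := Nat.lt_succ_self k
        tauto
      · have h3 : ¬ w k = w m := fun e => hkm (hinj k m hk (by omega) e)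
        have h4 : k < m + 1 ↔ k < m := by omega
        tauto
  refine ⟨hdist, ?_, hinj, fun v hv => hcross v n le_rfl hv, ?_⟩
  · intro k i j hk hij hj
    have h2 := hside k hk i (by omega)
    have h3 := hside k hk j hj
    have h4 : i ≤ k ↔ ¬ k < i := by omega
    have h5 : k < i → k < j := by omega
    unfold WS.Sep
    tauto
  · intro i j hij hj
    refine ⟨fun k hk => hG.step (i + k) (by omega), fun k hk => hG.adj (i + k) (by omega), ?_⟩
    show dd cs (x (i + 0)) (x (i + (j - i))) = j - i
    rw [Nat.add_zero, show i + (j - i) = j by omega]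
    exact hdist i j hij hj

end Pool.Agent.helper77.DC
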