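import Pool.Agent.helper53.DC.SpecA

/-! dc:A8: different walls of a common finite residue cross. -/

set_option autoImplicit false

namespace Pool.Agent.helper77.DC

open Pool.Agent.helper53.DC

theorem A8_seq (P : ℕ → Prop) (n a : ℕ) (ha : a < n)
    (h : ∀ k, ¬(P k ↔ P (k + 1)) ↔ k % n = a) : ∀ k,
    (k ≤ a → (P k ↔ P 0)) ∧ (a < k → k ≤ a + n → (P k ↔ ¬ P 0)) ∧
      (a + n < k → k ≤ a + 2 * n → (P k ↔ P 0)) := by
  have hmod : ∀ k, k < a + 2 * n → (k % n = a ↔ k = a ∨ k = a + n) := by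
    intro k hk
    constructor
    · intro h1
      have h2 := Nat.div_add_mod k n
      rw [h1] at h2
      rcases h3 : k / n with _ | _ | c
      · rw [h3] at h2; left; omega
      · rw [h3] at h2; right; simp only [Nat.zero_add, Nat.mul_one] at h2; omega
      · rw [h3] at h2
        have : n * (c + 1 + 1) = n * c + 2 * n := by ring
        rw [this] at h2
        have := Nat.zero_le (n * c)
        omega
    · rintro (rfl | rfl)
      · exact Nat.mod_eq_of_lt ha
      · rw [Nat.add_mod_right]; exact Nat.mod_eq_of_lt ha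
  intro k
  induction k with
  | zero =>
    refine ⟨fun _ => Iff.rfl, fun h1 => absurd h1 (Nat.not_lt_zero _), fun h1 => ?_⟩
    exact absurd h1 (Nat.not_lt_zero _)
  | succ k ih =>
    obtain ⟨i1, i2, i3⟩ := ih
    refine ⟨fun h1 => ?_, fun h1 h2 => ?_, fun h1 h2 => ?_⟩
    · have h3 : k % n ≠ a := by
        rw [Ne, hmod k (by omega)]; omega
      have h4 := not_not.1 (fun h5 => h3 ((h k).1 h5))
      rw [← h4]
      exact i1 (by omega)
    · by_cases hk : k = a
      · have h5 : k % n = a := (hmod k (by omega)).2 (Or.inl hk)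
        have h6 := (h k).2 h5
        have h7 := i1 (by omega)
        tauto
      · have h3 : k % n ≠ a := by
          rw [Ne, hmod k (by omega)]; omega
        have h4 := not_not.1 (fun h5 => h3 ((h k).1 h5))
        rw [← h4]
        exact i2 (by omega) (by omega)
    · by_cases hk : k = a + n
      · have h5 : k % n = a := (hmod k (by omega)).2 (Or.inr hk)
        have h6 := (h k).2 h5
        have h7 := i2 (by omega) (by omega)
        tauto
      · have h3 : k % n ≠ a := by
          rw [Ne, hmod k (by omega)]; omega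
        have h4 := not_not.1 (fun h5 => h3 ((h k).1 h5))
        rw [← h4]
        exact i3 (by omega) (by omega)

/-- four sign patterns -/
theorem A8_four (P Q : ℕ → Prop) (n a b : ℕ) (hab : a < b) (hb : b < n)
    (hP : ∀ k, ¬(P k ↔ P (k + 1)) ↔ k % n = a) (hQ : ∀ k, ¬(Q k ↔ Q (k + 1)) ↔ k % n = b)
    (p p' : Prop) : ∃ k, (P k ↔ p) ∧ (Q k ↔ p') := by
  have h1 := A8_seq P n a (by omega) hP
  have h2 := A8_seq Q n b hb hQ
  by_cases hp : p ↔ P 0
  · by_cases hp' : p' ↔ Q 0
    · exact ⟨0, hp.symm, hp'.symm⟩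
    · refine ⟨a + n + 1, ?_, ?_⟩
      · rw [(h1 _).2.2 (by omega) (by omega)]; exact hp.symm
      · rw [(h2 _).2.1 (by omega) (by omega)]; tauto
  · by_cases hp' : p' ↔ Q 0
    · refine ⟨a + 1, ?_, ?_⟩
      · rw [(h1 _).2.1 (by omega) (by omega)]; tauto
      · rw [(h2 _).1 (by omega)]; exact hp'.symm
    · refine ⟨b + 1, ?_, ?_⟩
      · rw [(h1 _).2.1 (by omega) (by omega)]; tauto
      · rw [(h2 _).2.1 (by omega) (by omega)]; tauto

theorem A8 (hA3 : A3_stmt) : A8_stmt := by
  intro B W _ M cs r r' hres hne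
  obtain ⟨x, i, j, a, b, hm, hr, hr'⟩ := hres
  obtain ⟨q, hq⟩ : ∃ q, q = cs.simple i * cs.simple j := ⟨_, rfl⟩
  rw [← hq] at hr hr'
  have hqm : q ^ (M i j) = 1 := by rw [hq]; exact cs.simple_mul_simple_pow i j
  have hn : 0 < orderOf q := orderOf_pos_iff.2
    (isOfFinOrder_iff_pow_eq_one.2 ⟨M i j, Nat.pos_of_ne_zero hm, hqm⟩)
  have hss : ∀ i, cs.simple i * cs.simple i = 1 := fun i => cs.simple_mul_simple_self i
  have hinv : ∀ i, (cs.simple i)⁻¹ = cs.simple i := fun i => cs.inv_simple i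
  have hqi : q⁻¹ = cs.simple j * cs.simple i := by rw [hq, mul_inv_rev, hinv, hinv]
  have hconj : ∀ k, cs.simple i * (q ^ k)⁻¹ = q ^ k * cs.simple i := by
    intro k
    have h1 : SemiconjBy (cs.simple i) q⁻¹ q := by
      unfold SemiconjBy
      rw [hqi, hq, mul_assoc]
    have h2 := h1.pow_right k
    rw [inv_pow] at h2
    exact h2
  obtain ⟨g, hg0, hg1⟩ : ∃ g : ℕ → W, (∀ t, g (2 * t) = x * q ^ t) ∧
      ∀ t, g (2 * t + 1) = x * q ^ t * cs.simple i := by
    refine ⟨fun k => if k % 2 = 0 then x * q ^ (k / 2) else x * q ^ (k / 2) * cs.simple i, ?_, ?_⟩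
    · intro t
      have h1 : 2 * t % 2 = 0 := by omega
      have h2 : 2 * t / 2 = t := by omega
      simp only [h1, h2, if_true]
    · intro t
      have h1 : ¬ (2 * t + 1) % 2 = 0 := by omega
      have h2 : (2 * t + 1) / 2 = t := by omega
      simp only [h1, h2, if_false]
  have hstep : ∀ k, ∃ l, g (k + 1) = g k * cs.simple l ∧
      (wall cs (g k) l).1 = x * q ^ k * cs.simple i * x⁻¹ := by
    intro k
    obtain ⟨t, rfl | rfl⟩ : ∃ t, k = 2 * t ∨ k = 2 * t + 1 := ⟨k / 2, by omega⟩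
    · refine ⟨i, by rw [hg0, hg1], ?_⟩
      rw [wall_val, hg0, mul_inv_rev]
      calc x * q ^ t * cs.simple i * ((q ^ t)⁻¹ * x⁻¹) =
          x * q ^ t * (cs.simple i * (q ^ t)⁻¹) * x⁻¹ := by group
        _ = x * (q ^ t * q ^ t) * cs.simple i * x⁻¹ := by rw [hconj]; group
        _ = _ := by rw [← pow_add, ← two_mul]
    · refine ⟨j, ?_, ?_⟩
      · rw [show 2 * t + 1 + 1 = 2 * (t + 1) by ring, hg0, hg1, pow_succ, hq]
        group
      · rw [wall_val, hg1]
        have e : x * q ^ t * cs.simple i * cs.simple j * (x * q ^ t * cs.simple i)⁻¹ =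
            x * q ^ t * (cs.simple i * cs.simple j) * (cs.simple i)⁻¹ * (q ^ t)⁻¹ * x⁻¹ := by
          group
        rw [e, hinv, ← hq]
        calc x * q ^ t * q * cs.simple i * (q ^ t)⁻¹ * x⁻¹ =
            x * q ^ t * q * (cs.simple i * (q ^ t)⁻¹) * x⁻¹ := by group
          _ = x * (q ^ t * q * q ^ t) * cs.simple i * x⁻¹ := by rw [hconj]; group
          _ = _ := by rw [← pow_succ, ← pow_add, show t + 1 + t = 2 * t + 1 by ring]
  have hsep : ∀ (v : Wall cs) (c : ℕ), v.1 = x * q ^ c * cs.simple i * x⁻¹ → ∀ k,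
      (cw cs).Sep v (g k) (g (k + 1)) ↔ k % orderOf q = c % orderOf q := by
    intro v c hv k
    obtain ⟨l, h1, h2⟩ := hstep k
    rw [h1, hA3]
    constructor
    · intro h3
      have h4 : v.1 = (wall cs (g k) l).1 := by rw [h3]
      rw [hv, h2] at h4
      have h5 : q ^ c = q ^ k :=
        mul_left_cancel (mul_right_cancel (mul_right_cancel h4))
      have h6 := pow_eq_pow_iff_modEq.1 h5
      exact h6.symm
    · intro h3
      apply Subtype.ext
      rw [hv, h2, pow_eq_pow_iff_modEq.2 (show c ≡ k [MOD orderOf q] from h3.symm)]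
  have key : ∀ (v v' : Wall cs) (a b : ℕ), v.1 = x * q ^ a * cs.simple i * x⁻¹ →
      v'.1 = x * q ^ b * cs.simple i * x⁻¹ → a % orderOf q < b % orderOf q →
      (cw cs).Cross v v' := by
    intro v v' a b hv hv' hlt β β'
    obtain ⟨k, h1, h2⟩ := A8_four (fun k => g k ∈ (cw cs).H v) (fun k => g k ∈ (cw cs).H v')
      (orderOf q) (a % orderOf q) (b % orderOf q) hlt (Nat.mod_lt _ hn) (hsep v a hv)
      (hsep v' b hv') (β = true) (β' = true)
    exact ⟨g k, h1, h2⟩
  rcases lt_trichotomy (a % orderOf q) (b % orderOf q) with h | h | h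
  · exact key r r' a b hr hr' h
  · exfalso
    apply hne
    apply Subtype.ext
    rw [hr, hr', pow_eq_pow_iff_modEq.2 (show a ≡ b [MOD orderOf q] from h)]
  · intro β β'
    rw [Set.inter_comm]
    exact key r' r b a hr' hr h β' β

end Pool.Agent.helper77.DC
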