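import Pool.Agent.helper53.DC.SpecK

/-! dc:K6: the graph of an orbit of a crossing pair is a forest. -/

set_option autoImplicit false

namespace Pool.Agent.helper77.DC

open Pool.Agent.helper53.DC

theorem K6 (hK1 : K1_stmt) (hK5 : K5_stmt) (hA6 : A6_stmt) (hW3 : W3_stmt) : K6_stmt := by
  intro B W _ M cs H m g0 w w' hD hww hG hm
  have key : ∀ (a b : Wall cs) (p : (TG cs H w w').Walk a b), p.IsPath → 2 ≤ p.length →
      (cw cs).Dis a b := by
    intro a b p hp hl
    have h1 := hK5 cs H m w w' hD hww a b p hp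
    obtain ⟨v, -, hv⟩ := hK1 (cw cs) (hA6 cs) g0 hG m p.length p.getVert hm h1 1
      (by omega) (by omega)
    have h2 := hv 0 p.length (by omega) (by omega) le_rfl
    have h3 := h2.1 0 (by omega)
    rw [SimpleGraph.Walk.getVert_zero, SimpleGraph.Walk.getVert_length] at h3
    exact ((hW3 (cw cs) (hA6 cs)).2.1 _ _ _ h3).1
  refine ⟨?_, key⟩
  intro v c hc
  cases c with
  | nil => exact SimpleGraph.Walk.not_isCycle_nil hc
  | @cons _ u _ h p =>
    have h3 := hc.three_le_length
    rw [SimpleGraph.Walk.length_cons] at h3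
    have hp := ((SimpleGraph.Walk.cons_isCycle_iff p h).1 hc).1
    have h4 := key u v p hp (by omega)
    have h5 : (SimpleGraph.Walk.cons h.symm SimpleGraph.Walk.nil :
        (TG cs H w w').Walk u v).IsPath := by
      rw [SimpleGraph.Walk.cons_isPath_iff]
      refine ⟨SimpleGraph.Walk.IsPath.nil, ?_⟩
      rw [SimpleGraph.Walk.support_nil, List.mem_singleton]
      exact h.ne.symm
    have h6 := (hK5 cs H m w w' hD hww u v _ h5).cr 0 (by simp)
    exact h4.2 h6

end Pool.Agent.helper77.DC
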