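import Pool.Agent.helper53.DC.SpecM

/-! dc:M8: separability criterion. -/

set_option autoImplicit false

namespace Pool.Agent.helper77.DC

open Pool.Agent.helper53.DC

theorem M8 (hM7 : M7_stmt) : M8_stmt := by
  intro Γ H _ G c K Y Φ F hc hY h1 hK hΦ hcov hF
  obtain ⟨φ, hφ1, hφ2⟩ := hM7 G Y hY
  let S : Setoid Y := {
    r := fun y y' => ∃ k ∈ K, (y' : RA G) = c k * (y : RA G)
    iseqv := by
      refine ⟨fun y => ⟨1, K.one_mem, by rw [map_one, one_mul]⟩, ?_, ?_⟩
      · rintro y y' ⟨k, hk, e⟩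
        exact ⟨k⁻¹, K.inv_mem hk, by rw [e, map_inv]; group⟩
      · rintro y y' y'' ⟨k, hk, e⟩ ⟨l, hl, e'⟩
        exact ⟨l * k, K.mul_mem hl hk, by rw [e', e, map_mul]; group⟩ }
  have hfin : Finite (Quotient S) := by
    have : Finite {f : RA G // f ∈ Φ ∩ Y} := (hΦ.subset Set.inter_subset_left).to_subtype
    refine Finite.of_surjective (fun f : {f : RA G // f ∈ Φ ∩ Y} =>
      (Quotient.mk S ⟨f.1, f.2.2⟩)) ?_
    intro q
    induction q using Quotient.inductionOn with
    | h y =>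
      obtain ⟨k, hk, f, hf, e⟩ := hcov y.1 y.2
      have hfY : f ∈ Y := (hK k hk f).1 (by rw [← e]; exact y.2)
      exact ⟨⟨f, hf, hfY⟩, Quotient.sound ⟨k, hk, e⟩⟩
  have hwd : ∀ (h : H) (y y' : Y), S.r y y' → S.r (φ (c h) y) (φ (c h) y') := by
    rintro h y y' ⟨k, hk, e⟩
    exact ⟨k, hk, hφ2 (c k) (hK k hk) (c h) y y' e⟩
  let act : MulAction H (Quotient S) := {
    smul := fun h => Quotient.map (φ (c h)) (hwd h)
    one_smul := by
      intro q
      induction q using Quotient.inductionOn with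
      | h y =>
        show Quotient.mk S (φ (c 1) y) = Quotient.mk S y
        rw [map_one, map_one]
        rfl
    mul_smul := by
      intro a b q
      induction q using Quotient.inductionOn with
      | h y =>
        show Quotient.mk S (φ (c (a * b)) y) = Quotient.mk S (φ (c a) (φ (c b) y))
        rw [map_mul, map_mul]
        rfl }
  have hsm : ∀ (h : H) (y : Y), h • (Quotient.mk S y) = Quotient.mk S (φ (c h) y) := fun _ _ => rfl
  refine ⟨MulAction.stabilizer H (Quotient.mk S ⟨1, h1⟩), ?_, ?_, ?_⟩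
  · have : Finite (H ⧸ MulAction.stabilizer H (Quotient.mk S ⟨1, h1⟩)) :=
      Finite.of_equiv _ (MulAction.orbitEquivQuotientStabilizer H (Quotient.mk S ⟨1, h1⟩))
    exact Subgroup.finiteIndex_of_finite_quotient
  · intro k hk
    rw [MulAction.mem_stabilizer_iff, hsm]
    have h2 : (1 : RA G) * (c k)⁻¹ ∈ Y := by
      have h3 := (hK k⁻¹ (K.inv_mem hk) 1).2 h1
      rw [map_inv, mul_one] at h3
      rwa [one_mul]
    have h3 := hφ1 (c k) ⟨1, h1⟩ h2
    refine Quotient.sound ⟨k, hk, ?_⟩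
    rw [h3]
    show (1 : RA G) = c k * (1 * (c k)⁻¹)
    group
  · intro f hf hf0
    rw [MulAction.mem_stabilizer_iff, hsm] at hf0
    obtain ⟨k, hk, e⟩ := Quotient.exact hf0
    have h2 : (1 : RA G) * (c f)⁻¹ ∈ Y := by rw [one_mul]; exact hF f hf
    have h3 := hφ1 (c f) ⟨1, h1⟩ h2
    rw [h3] at e
    have h4 : c f = c k := by
      have h5 : (1 : RA G) = c k * (1 * (c f)⁻¹) := e
      rw [one_mul] at h5
      exact eq_of_mul_inv_eq_one h5.symm |>.symm
    rw [hc h4]
    exact hk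

end Pool.Agent.helper77.DC
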