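import Pool.Agent.helper58.DC.Spec2

/-!
# IVP

A chain of vectors `T → ℕ` (`T` finite) is fixed by `l` as a set exactly when each of its members
is invariant under `l`.
-/

namespace Pool.Agent.helper77.DC

open Pool.Agent.helper58.DC

theorem IVP : IVP_stmt := by
  intro L T _ _ _ l W hW
  constructor
  · intro h r hr t
    have hr' : (fun t => r (l • t)) ∈ W := by
      rw [← mem_wAct, h]
      exact hr
    have hsum : ∑ t, r (l • t) = ∑ t, r t :=
      Equiv.sum_comp (MulAction.toPerm l : Equiv.Perm T) r
    rcases eq_or_ne r (fun t => r (l • t)) with he | hne
    · exact (congrFun he t).symm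
    · rcases hW (Finset.mem_coe.mpr hr) (Finset.mem_coe.mpr hr') hne with hle | hle
      · exact (((Finset.sum_eq_sum_iff_of_le fun i _ => hle i).mp hsum.symm) t
          (Finset.mem_univ t)).symm
      · exact ((Finset.sum_eq_sum_iff_of_le fun i _ => hle i).mp hsum) t (Finset.mem_univ t)
  · intro h
    ext r
    rw [mem_wAct]
    constructor
    · intro hu
      have key := h _ hu
      have he : (fun t => r (l • t)) = r := by
        funext t
        have := key (l⁻¹ • t)
        simpa using this
      rwa [he] at hu
    · intro hr
      have he : (fun t => r (l • t)) = r := funext (h r hr)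
      rwa [he]

end Pool.Agent.helper77.DC
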