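import Pool.Agent.helper53.DC.SpecH

/-! dc:H4: at most `g0` walls cross two disjoint walls. -/

set_option autoImplicit false

namespace Pool.Agent.helper77.DC

open Pool.Agent.helper53.DC

theorem H4 (hH1 : H1_stmt) (hH4a : H4a_stmt) (hA7 : A7_stmt) (hA9 : A9_stmt)
    (hA19b : A19b_stmt) : H4_stmt := by
  intro B W _ _ M cs δ hδ
  obtain ⟨C, hC⟩ := hH4a cs δ hδ
  obtain ⟨N, hN⟩ : ∃ N, ∀ i j, M i j ≤ N := by
    obtain ⟨N, hN⟩ := (Set.finite_range (fun p : B × B => M p.1 p.2)).bddAbove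
    exact ⟨N, fun i j => hN ⟨(i, j), rfl⟩⟩
  obtain ⟨g0, hg0⟩ := hA19b cs (C + 2 * N + 2 * δ)
  refine ⟨g0, fun r r' hrr' F hF => ?_⟩
  obtain ⟨x, hx⟩ := hC r r' hrr'
  refine hg0 x F fun v hv => ?_
  obtain ⟨h1, h2⟩ := hF v hv
  have h1' : (cw cs).Cross r v := fun b b' => by rw [Set.inter_comm]; exact h1 b' b
  have h2' : (cw cs).Cross r' v := fun b b' => by rw [Set.inter_comm]; exact h2 b' b
  obtain ⟨p, hp, hp2⟩ := hA9 cs N hN r v (hA7 cs r v h1')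
  obtain ⟨p', hp', hp2'⟩ := hA9 cs N hN r' v (hA7 cs r' v h2')
  have h3 := hH1 cs δ hδ v p p' x
  have h4 := hx p hp p' hp'
  have h5 : max (DD cs v p) (DD cs v p') ≤ 2 * N := max_le hp2 hp2'
  omega

end Pool.Agent.helper77.DC
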