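import Pool.Agent.helper53.DC.SpecV

/-! dc:V5: extending an equivariant function from a component to the whole space. -/

set_option autoImplicit false

namespace Pool.Agent.helper77.DC

open Pool.Agent.helper53.DC

open Classical in
theorem V5 : V5_stmt := by
  intro W V _ _ H' K T A _ f hK hT hf
  let F : V → A → ℝ := fun u α =>
    if hx : ∃ h : H', (h : W) • u ∈ T then f ((hx.choose : W) • u) (hx.choose • α) else 0
  have key : ∀ (u : V) (α : A) (h : H'), (h : W) • u ∈ T → F u α = f ((h : W) • u) (h • α) := by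
    intro u α h hu
    have hx : ∃ h : H', (h : W) • u ∈ T := ⟨h, hu⟩
    have h0 : F u α = f ((hx.choose : W) • u) (hx.choose • α) := dif_pos hx
    have h1 := hx.choose_spec
    rw [h0]
    generalize hx.choose = g at h1 ⊢
    have e : ((h * g⁻¹ : H') : W) • ((g : W) • u) = (h : W) • u := by
      rw [← mul_smul, ← Subgroup.coe_mul, inv_mul_cancel_right]
    have e' : (h * g⁻¹ : H') • (g • α) = h • α := by
      rw [← mul_smul, inv_mul_cancel_right]
    have h2 : ((h * g⁻¹ : H') : W) ∈ K := by
      refine (hT _ (h * g⁻¹ : H').2 _ h1).1 ?_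
      rw [e]; exact hu
    have h3 := hf (h * g⁻¹) h2 _ h1 (g • α)
    rw [e, e'] at h3
    exact h3.symm
  refine ⟨F, ?_, ?_, ?_⟩
  · intro g u α
    by_cases hx : ∃ h : H', (h : W) • u ∈ T
    · obtain ⟨h, hu⟩ := hx
      have e : ((h * g⁻¹ : H') : W) • ((g : W) • u) = (h : W) • u := by
        rw [← mul_smul, ← Subgroup.coe_mul, inv_mul_cancel_right]
      have e' : (h * g⁻¹ : H') • (g • α) = h • α := by
        rw [← mul_smul, inv_mul_cancel_right]
      rw [key u α h hu, key ((g : W) • u) (g • α) (h * g⁻¹) (by rw [e]; exact hu), e, e']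
    · have hx' : ¬ ∃ h : H', (h : W) • ((g : W) • u) ∈ T := by
        rintro ⟨h, hu⟩
        refine hx ⟨h * g, ?_⟩
        rw [Subgroup.coe_mul, mul_smul]
        exact hu
      show (if hx : _ then _ else _) = (if hx : _ then _ else _)
      rw [dif_neg hx, dif_neg hx']
  · intro u hu
    funext α
    have h1 := key u α 1 (by rw [Subgroup.coe_one, one_smul]; exact hu)
    rw [Subgroup.coe_one, one_smul, one_smul] at h1
    exact h1
  · intro u hu
    funext α
    refine dif_neg ?_
    rintro ⟨h, hh⟩
    exact hu h h.2 hh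

end Pool.Agent.helper77.DC
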